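import Pool.Agent.H68Z.Inj.Defs

set_option autoImplicit false

open Cardinal Order Set

namespace Pool.Agent.H68Z.Inj

universe u

section Measure

variable {κ : Cardinal.{u}} {X : Type u} {U : Ultrafilter (SmallSub κ X)}

theorem all_small (hU : IsNormalMeasure κ X U) {I : Type u} (hI : #I < κ)
    (s : I → Set (SmallSub κ X)) (hs : ∀ i, s i ∈ U) : {x | ∀ i, x ∈ s i} ∈ U := by
  have h := hU.1 (range s) (lt_of_le_of_lt mk_range_le hI) (by rintro _ ⟨i, rfl⟩; exact hs i)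
  refine Filter.mem_of_superset h ?_
  intro x hx i
  exact hx _ ⟨i, rfl⟩

theorem exists_small (hU : IsNormalMeasure κ X U) {I : Type u} (hI : #I < κ)
    (s : I → Set (SmallSub κ X)) (hs : {x | ∃ i, x ∈ s i} ∈ U) : ∃ i, s i ∈ U := by
  by_contra h
  push Not at h
  have h2 := all_small hU hI (fun i => (s i)ᶜ) (fun i => Ultrafilter.compl_mem_iff_notMem.2 (h i))
  obtain ⟨x, ⟨i, hi⟩, hx⟩ := U.nonempty_of_mem (Filter.inter_mem hs h2)
  exact hx i hi

theorem diag (hU : IsNormalMeasure κ X U) {Y : Type u} (ι : Y → X) (hι : Function.Injective ι)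
    [Nonempty Y] (s : Y → Set (SmallSub κ X)) (hs : ∀ y, s y ∈ U) :
    {x | ∀ y, ι y ∈ x.1 → x ∈ s y} ∈ U := by
  classical
  by_contra h
  have h2 := Ultrafilter.compl_mem_iff_notMem.2 h
  have h3 : ∀ x : SmallSub κ X, ∃ y : Y, x ∈ {x : SmallSub κ X | ∀ y, ι y ∈ x.1 → x ∈ s y}ᶜ →
      ι y ∈ x.1 ∧ x ∉ s y := by
    intro x
    by_cases hx : x ∈ {x : SmallSub κ X | ∀ y, ι y ∈ x.1 → x ∈ s y}ᶜ
    · have hx' : ¬ ∀ y, ι y ∈ x.1 → x ∈ s y := hx
      push Not at hx'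
      obtain ⟨y, hy⟩ := hx'
      exact ⟨y, fun _ => hy⟩
    · exact ⟨Classical.arbitrary Y, fun h => absurd h hx⟩
  choose f hf using h3
  obtain ⟨a, ha⟩ := hU.2.2 (fun x => ι (f x))
    (Filter.mem_of_superset h2 (fun x hx => (hf x hx).1))
  obtain ⟨x0, hx0⟩ := U.nonempty_of_mem ha
  have h4 := Filter.inter_mem (Filter.inter_mem ha h2) (hs (f x0))
  obtain ⟨x, ⟨hx1, hx2⟩, hx3⟩ := U.nonempty_of_mem h4
  have : f x = f x0 := hι (by
    have e1 : ι (f x) = a := hx1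
    have e2 : ι (f x0) = a := hx0
    rw [e1, e2])
  exact (hf x hx2).2 (this ▸ hx3)

/-- Almost no `x` has a cofinal subset indexed by its part of a small set `Y`. -/
theorem key [LinearOrder X] (hU : IsNormalMeasure κ X U) {Y : Type u} [Nonempty Y] (ι : Y → X)
    (hι : Function.Injective ι) (hb : ∀ b : Y → X, ∃ δ, ∀ y, b y < δ)
    (b : SmallSub κ X → Y → X) :
    {x | ∀ a ∈ x.1, ∃ y, ι y ∈ x.1 ∧ b x y ∈ x.1 ∧ a ≤ b x y} ∉ U := by
  intro h
  have h1 : ∀ y, ∃ c : X, {x : SmallSub κ X | b x y ∈ x.1 → b x y = c} ∈ U := by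
    intro y
    by_cases hy : {x : SmallSub κ X | b x y ∈ x.1} ∈ U
    · obtain ⟨a, ha⟩ := hU.2.2 (fun x => b x y) hy
      exact ⟨a, Filter.mem_of_superset ha (fun x hx _ => hx)⟩
    · refine ⟨ι y, Filter.mem_of_superset (Ultrafilter.compl_mem_iff_notMem.2 hy) ?_⟩
      intro x hx hx'
      exact absurd hx' hx
  choose c hc using h1
  obtain ⟨δ, hδ⟩ := hb c
  have h2 := diag hU ι hι _ hc
  obtain ⟨x, ⟨hx1, hx2⟩, hx3⟩ :=
    U.nonempty_of_mem (Filter.inter_mem (Filter.inter_mem h h2) (hU.2.1 δ))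
  obtain ⟨y, hy1, hy2, hy3⟩ := hx1 δ hx3
  have := hx2 y hy1 hy2
  exact absurd (hδ y) (not_lt.2 (this ▸ hy3))

end Measure

theorem main {κ lam : Cardinal.{u}} {X L : Type u} [LinearOrder X] [WellFoundedLT X]
    [LinearOrder L] {U : Ultrafilter (SmallSub κ X)} (hU : IsNormalMeasure κ X U)
    (hκ : κ ≤ lam) (hinf : ℵ₀ ≤ lam) (hL : #L = lam) (hLX : lam ≤ #X)
    (hbd : ∀ B : Set X, #B ≤ lam → ∃ δ, ∀ b ∈ B, b < δ)
    (hIio : ∀ ξ : X, #(Iio ξ) ≤ lam)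
    (hpow : ∀ i n : L, #(Iic n) ^ #(Iic i) ≤ lam)
    (θ : Cardinal.{u}) (hθ : θ < κ) (hθ0 : θ ≠ 0) (I : Set L) (hI : IsCofinal I) (hIκ : #I < κ)
    (d : X → X → L) :
    IsStationary ({α : X | Order.cof (Iio α) ≠ θ} \ injSet d) := by
  classical
  intro C hC
  have hLne : Nonempty L := by
    rw [← Cardinal.mk_ne_zero_iff, hL]
    exact (lt_of_lt_of_le aleph0_pos hinf).ne'
  have hXne : Nonempty X := by
    rw [← Cardinal.mk_ne_zero_iff]
    exact (lt_of_lt_of_le aleph0_pos (hinf.trans hLX)).ne'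
  have hbr : ∀ {Y : Type u}, #Y ≤ lam → ∀ b : Y → X, ∃ δ, ∀ y, b y < δ := by
    intro Y hY b
    obtain ⟨δ, hδ⟩ := hbd (range b) (mk_range_le.trans hY)
    exact ⟨δ, fun y => hδ _ ⟨y, rfl⟩⟩
  -- suprema
  have hsup : ∀ x : SmallSub κ X, ∃ α, IsLUB x.1 α := by
    intro x
    obtain ⟨δ, hδ⟩ := hbd x.1 (x.2.le.trans hκ)
    have hne : (upperBounds x.1).Nonempty := ⟨δ, fun b hb => (hδ b hb).le⟩
    refine ⟨wellFounded_lt.min _ hne, wellFounded_lt.min_mem _ hne, fun c hc => ?_⟩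
    exact not_lt.1 (wellFounded_lt.not_lt_min _ hc)
  choose σ hσ using hsup
  -- closure under the club
  have hc : ∀ a : X, ∃ c, c ∈ C ∧ a < c := by
    intro a
    obtain ⟨δ, hδ⟩ := hbd {a} (by rw [mk_singleton]; exact one_le_aleph0.trans hinf)
    obtain ⟨c, hc1, hc2⟩ := hC.isCofinal δ
    exact ⟨c, hc1, lt_of_lt_of_le (hδ a rfl) hc2⟩
  choose c hc1 hc2 using hc
  have H1 : {x : SmallSub κ X | ∀ a, id a ∈ x.1 → x ∈ {x : SmallSub κ X | c a ∈ x.1}} ∈ U :=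
    diag hU id Function.injective_id _ (fun a => hU.2.1 (c a))
  have H0 := hU.2.1 (Classical.arbitrary X)
  have hlt : ∀ x : SmallSub κ X, (∀ a, a ∈ x.1 → c a ∈ x.1) → ∀ a ∈ x.1, a < σ x :=
    fun x hx a ha => lt_of_lt_of_le (hc2 a) ((hσ x).1 (hx a ha))
  have hmemC : ∀ x : SmallSub κ X, (∀ a, a ∈ x.1 → c a ∈ x.1) → x.1.Nonempty → σ x ∈ C := by
    intro x hx ⟨a0, ha0⟩
    refine hC.isLUB_mem (t := x.1 ∩ C) inter_subset_right ⟨c a0, hx a0 ha0, hc1 a0⟩ ?_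
    refine ⟨fun b hb => (hσ x).1 hb.1, fun b hb => (hσ x).2 fun a ha => ?_⟩
    exact (hc2 a).le.trans (hb ⟨hx a ha, hc1 a⟩)
  have hbelow : ∀ x : SmallSub κ X, ∀ η, η < σ x → ∃ ξ ∈ x.1, η < ξ := by
    intro x η hη
    exact (lt_isLUB_iff (hσ x)).1 hη
  -- cofinality
  have H2 : {x : SmallSub κ X | Order.cof (Iio (σ x)) ≠ θ} ∈ U := by
    by_contra h
    have h' := Ultrafilter.compl_mem_iff_notMem.2 h
    have hY : #θ.out = θ := mk_out θ
    haveI : Nonempty θ.out := by rw [← Cardinal.mk_ne_zero_iff, hY]; exact hθ0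
    obtain ⟨ι⟩ : Nonempty (θ.out ↪ X) := by
      rw [← Cardinal.le_def, hY]; exact (hθ.le.trans hκ).trans hLX
    have h3 : ∀ x : SmallSub κ X, ∃ b : θ.out → X, Order.cof (Iio (σ x)) = θ →
        (∀ a, a < σ x → ∃ y, b y ∈ x.1 ∧ a ≤ b y) := by
      intro x
      by_cases hx : Order.cof (Iio (σ x)) = θ
      · obtain ⟨s, hs1, hs2⟩ := Order.exists_cof_eq (Iio (σ x))
        obtain ⟨e⟩ : Nonempty (θ.out ≃ s) := by
          rw [← Cardinal.eq, hY, hs2, hx]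
        have h4 : ∀ y : θ.out, ∃ ξ ∈ x.1, (e y).1.1 < ξ := fun y => hbelow x _ (e y).1.2
        choose b hb1 hb2 using h4
        refine ⟨b, fun _ a ha => ?_⟩
        obtain ⟨t, ht1, ht2⟩ := hs1 ⟨a, ha⟩
        refine ⟨e.symm ⟨t, ht1⟩, hb1 _, ?_⟩
        have := hb2 (e.symm ⟨t, ht1⟩)
        rw [Equiv.apply_symm_apply] at this
        exact le_trans ht2 this.le
      · exact ⟨ι, fun h => absurd h hx⟩
    choose b hb using h3
    have h5 := all_small hU (I := θ.out) (by rw [hY]; exact hθ)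
      (fun y => {x : SmallSub κ X | ι y ∈ x.1}) (fun y => hU.2.1 (ι y))
    refine key hU ι ι.injective (hbr (by rw [hY]; exact hθ.le.trans hκ)) b ?_
    refine Filter.mem_of_superset (Filter.inter_mem (Filter.inter_mem h' h5) H1) ?_
    rintro x ⟨⟨hx1, hx2⟩, hx3⟩ a ha
    have hx1' : Order.cof (Iio (σ x)) = θ := not_not.1 hx1
    obtain ⟨y, hy1, hy2⟩ := hb x hx1' a (hlt x hx3 a ha)
    exact ⟨y, hx2 y, hy1, hy2⟩
  -- not in the injectivity set
  have H3 : {x : SmallSub κ X | σ x ∉ injSet d} ∈ U := by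
    by_contra h
    have h' := Filter.inter_mem (Ultrafilter.compl_mem_iff_notMem.2 h) H1
    set G : Set (SmallSub κ X) := {x : SmallSub κ X | σ x ∉ injSet d}ᶜ ∩
      {x : SmallSub κ X | ∀ a, id a ∈ x.1 → x ∈ {x : SmallSub κ X | c a ∈ x.1}} with hG
    have h3 : ∀ x : SmallSub κ X, ∃ (η ξ : X) (B : Set X), x ∈ G →
        η < ξ ∧ ξ ∈ x.1 ∧ B ⊆ x.1 ∧ CofinalIn B (σ x) ∧ InjOn (d η) B := by
      intro x
      by_cases hx : x ∈ G
      · have h4 : σ x ∈ injSet d := not_not.1 hx.1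
        obtain ⟨η, hη, B, hB1, hB2, hB3⟩ := h4 x.1 ⟨fun a ha => hlt x hx.2 a ha, hσ x⟩
        obtain ⟨ξ, hξ1, hξ2⟩ := hbelow x η hη
        exact ⟨η, ξ, B, fun _ => ⟨hξ2, hξ1, hB1, hB2, hB3⟩⟩
      · exact ⟨σ x, σ x, ∅, fun h => absurd h hx⟩
    choose η ξ B hB using h3
    obtain ⟨ξ0, hξ0⟩ := hU.2.2 ξ (Filter.mem_of_superset h' (fun x hx => (hB x hx).2.1))
    obtain ⟨g, hg⟩ : ∃ g : L → X, ∀ a, a < ξ0 → ∃ ζ, g ζ = a := by
      obtain ⟨e⟩ : Nonempty (Iio ξ0 ↪ L) := by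
        rw [← Cardinal.le_def, hL]; exact hIio ξ0
      refine ⟨Function.extend e Subtype.val (fun _ => ξ0), fun a ha => ⟨e ⟨a, ha⟩, ?_⟩⟩
      rw [e.injective.extend_apply]
    have h5 : ∀ x : SmallSub κ X, ∃ ζ, η x < ξ0 → g ζ = η x := by
      intro x
      by_cases hx : η x < ξ0
      · obtain ⟨ζ, hζ⟩ := hg _ hx
        exact ⟨ζ, fun _ => hζ⟩
      · exact ⟨Classical.arbitrary L, fun h => absurd h hx⟩
    choose ζ hζ using h5
    have hcof : ∀ f : SmallSub κ X → L, ∃ i : L, {x | f x ≤ i} ∈ U := by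
      intro f
      obtain ⟨i, hi⟩ := exists_small hU hIκ (fun i : I => {x | f x ≤ i.1}) (by
        refine Filter.mem_of_superset Filter.univ_mem ?_
        intro x _
        obtain ⟨i, hi1, hi2⟩ := hI (f x)
        exact ⟨⟨i, hi1⟩, hi2⟩)
      exact ⟨i.1, hi⟩
    obtain ⟨i, hi⟩ := hcof ζ
    have h6 : ∀ β : X, ∃ n : L, {x | d (η x) β ≤ n} ∈ U := fun β => hcof _
    choose n hn using h6
    have h7 := diag hU id Function.injective_id _ hn
    -- codes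
    let Y : Type u := {h : Iic i → L // ∃ m, ∀ z, h z ≤ m}
    let code : X → Y := fun β => ⟨fun z => min (d (g z.1) β) (n β), n β, fun _ => min_le_right _ _⟩
    have hYcard : #Y ≤ lam := by
      let F : (Σ m : L, (Iic i → Iic m)) → Y := fun p => ⟨fun z => (p.2 z).1, p.1, fun z => (p.2 z).2⟩
      have hF : Function.Surjective F := by
        rintro ⟨h, m, hm⟩
        exact ⟨⟨m, fun z => ⟨h z, hm z⟩⟩, rfl⟩
      refine (mk_le_of_surjective hF).trans ?_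
      rw [mk_sigma]
      refine (sum_le_sum _ (fun _ => lam) ?_).trans ?_
      · intro m
        have := hpow i m
        rwa [power_def] at this
      · rw [sum_const', hL, mul_eq_self hinf]
    haveI : Nonempty Y := ⟨code (Classical.arbitrary X)⟩
    obtain ⟨ι⟩ : Nonempty (Y ↪ X) := by
      rw [← Cardinal.le_def]; exact hYcard.trans hLX
    have h8 := diag hU id Function.injective_id
      (fun β => {x : SmallSub κ X | ι (code β) ∈ x.1}) (fun β => hU.2.1 _)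
    let b : SmallSub κ X → Y → X := fun x y =>
      if h : ∃ β ∈ B x, code β = y then h.choose else ξ0
    refine key hU ι ι.injective (hbr hYcard) b ?_
    refine Filter.mem_of_superset (Filter.inter_mem (Filter.inter_mem (Filter.inter_mem
      (Filter.inter_mem h' hξ0) hi) h7) h8) ?_
    rintro x ⟨⟨⟨⟨hx1, hx2⟩, hx3⟩, hx4⟩, hx5⟩ a ha
    obtain ⟨e1, e2, e3, e4, e5⟩ := hB x hx1
    have e6 : g (ζ x) = η x := hζ x (by have : ξ x = ξ0 := hx2; rw [← this]; exact e1)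
    have hinj : InjOn code (B x) := by
      intro β hβ γ hγ hβγ
      apply e5 hβ hγ
      have e7 : min (d (g (ζ x)) β) (n β) = min (d (g (ζ x)) γ) (n γ) :=
        congrFun (congrArg Subtype.val hβγ) ⟨ζ x, hx3⟩
      have e8 : d (η x) β ≤ n β := hx4 β (e3 hβ)
      have e9 : d (η x) γ ≤ n γ := hx4 γ (e3 hγ)
      rwa [e6, min_eq_left e8, min_eq_left e9] at e7
    obtain ⟨β, hβ1, hβ2⟩ := (lt_isLUB_iff e4.2).1 (hlt x hx1.2 a ha)
    have hex : ∃ β' ∈ B x, code β' = code β := ⟨β, hβ1, rfl⟩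
    have hbβ : b x (code β) = β := by
      simp only [b, dif_pos hex]
      exact hinj hex.choose_spec.1 hβ1 hex.choose_spec.2
    refine ⟨code β, hx5 β (e3 hβ1), ?_, ?_⟩
    · rw [hbβ]; exact e3 hβ1
    · rw [hbβ]; exact hβ2.le
  obtain ⟨x, ⟨⟨hx0, hx1⟩, hx2⟩, hx3⟩ :=
    U.nonempty_of_mem (Filter.inter_mem (Filter.inter_mem (Filter.inter_mem H0 H1) H2) H3)
  exact ⟨σ x, ⟨hx2, hx3⟩, hmemC x hx1 ⟨_, hx0⟩⟩

end Pool.Agent.H68Z.Inj
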