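import Mathlib

set_option autoImplicit false

open Cardinal Order Set

namespace Pool.Agent.H68Z.Inj

universe u

/-- `P_κ(X)`: the subsets of `X` with fewer than `κ` elements. -/
abbrev SmallSub (κ : Cardinal.{u}) (X : Type u) : Type u := {x : Set X // #x < κ}

/-- `U` is a normal measure on `P_κ(X)`: a `κ`-complete ultrafilter which is fine (each point of `X`
lies in almost every `x`) and normal (a function choosing an element of almost every `x` is
constant almost everywhere). -/
def IsNormalMeasure (κ : Cardinal.{u}) (X : Type u) (U : Ultrafilter (SmallSub κ X)) : Prop :=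
  (∀ S : Set (Set (SmallSub κ X)), #S < κ → (∀ s ∈ S, s ∈ U) → ⋂₀ S ∈ U) ∧
  (∀ a : X, {x : SmallSub κ X | a ∈ x.1} ∈ U) ∧
  (∀ f : SmallSub κ X → X, {x : SmallSub κ X | f x ∈ x.1} ∈ U →
    ∃ a : X, {x : SmallSub κ X | f x = a} ∈ U)

/-- `κ` is supercompact: it is uncountable and `P_κ(X)` carries a normal measure for every set `X`
with at least `κ` elements. -/
def IsSupercompact (κ : Cardinal.{u}) : Prop :=
  ℵ₀ < κ ∧ ∀ X : Type u, κ ≤ #X → ∃ U : Ultrafilter (SmallSub κ X), IsNormalMeasure κ X U

/-- `B` is a cofinal subset of `α`: its elements are below `α` and its supremum is `α`. -/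
def CofinalIn {X : Type u} [LinearOrder X] (B : Set X) (α : X) : Prop :=
  B ⊆ Iio α ∧ IsLUB B α

/-- The set `A(d)`: the points `α` such that for every cofinal `B ⊆ α` there are `η < α` and a
cofinal `B' ⊆ B` on which `β ↦ d η β` is injective. -/
def injSet {X L : Type u} [LinearOrder X] (d : X → X → L) : Set X :=
  {α | ∀ B : Set X, CofinalIn B α →
    ∃ η, η < α ∧ ∃ B' : Set X, B' ⊆ B ∧ CofinalIn B' α ∧ InjOn (d η) B'}

end Pool.Agent.H68Z.Inj
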