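import Pool.Agent.H68Z.Inj.Main

set_option autoImplicit false

open Cardinal Order Set

namespace Pool.Agent.H68Z.Inj

universe u

theorem general {κ lam : Cardinal.{u}} (hκ : IsSupercompact κ) (hs : lam.IsStrongLimit)
    (h1 : lam.ord.cof < κ) (h2 : κ < lam)
    (d : (succ lam).ord.ToType → (succ lam).ord.ToType → lam.ord.ToType) :
    IsStationary ({α : (succ lam).ord.ToType | Order.cof (Iio α) ≠ lam.ord.cof} \ injSet d) := by
  have hinf : ℵ₀ ≤ lam := (hκ.1.trans h2).le
  have hX : #(succ lam).ord.ToType = succ lam := by simp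
  have hL : #(lam.ord.ToType) = lam := by simp
  obtain ⟨U, hU⟩ := hκ.2 (succ lam).ord.ToType (by rw [hX]; exact (h2.trans (lt_succ lam)).le)
  obtain ⟨I, hI1, hI2⟩ := Order.exists_cof_eq lam.ord.ToType
  rw [Ordinal.cof_toType] at hI2
  have hIioL : ∀ i : lam.ord.ToType, #(Iio i) < lam := fun i => by
    simpa using mk_Iio_lt i
  have hIic : ∀ i : lam.ord.ToType, #(Iic i) < lam := by
    intro i
    rw [← Iio_insert]
    refine lt_of_le_of_lt mk_insert_le ?_
    exact add_lt_of_lt hinf (hIioL i) (one_lt_aleph0.trans_le hinf)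
  refine main hU h2.le hinf hL (by rw [hX]; exact le_succ lam) ?_ ?_ ?_ _ h1 ?_ I hI1
    (by rw [hI2]; exact h1) d
  · intro B hB
    by_contra h
    push Not at h
    have h3 : IsCofinal B := fun a => h a
    have h4 := Order.cof_le h3
    rw [Ordinal.cof_toType, (isRegular_succ hinf).cof_ord] at h4
    exact absurd (h4.trans hB) (not_le.2 (lt_succ lam))
  · intro ξ
    have : #(Iio ξ) < succ lam := by simpa using mk_Iio_lt ξ
    exact lt_succ_iff.1 this
  · intro i n
    calc #(Iic n) ^ #(Iic i) ≤ (2 ^ #(Iic n)) ^ #(Iic i) :=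
          power_le_power_right (cantor _).le
      _ = 2 ^ (#(Iic n) * #(Iic i)) := by rw [power_mul]
      _ ≤ lam := (hs.isStrongPrelimit (mul_lt_of_lt hinf (hIic n) (hIic i))).le
  · rw [Ne, Ordinal.cof_eq_zero, ord_eq_zero]
    exact hs.ne_zero

theorem exists_lam (κ μ : Cardinal.{u}) (hκ : ℵ₀ < κ) :
    ∃ lam : Cardinal.{u}, lam.IsStrongLimit ∧ lam.ord.cof < κ ∧ κ < lam ∧ μ < lam := by
  let o : Ordinal.{u} := (max κ μ).ord
  have hlim : IsSuccLimit (o + Ordinal.omega0) := Ordinal.isSuccLimit_add _ Ordinal.isSuccLimit_omega0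
  have hlt : max κ μ < ℶ_ (o + Ordinal.omega0) :=
    lt_of_le_of_lt (le_beth_ord _) (beth_lt_beth.2 (lt_add_of_pos_right _ Ordinal.omega0_pos))
  refine ⟨ℶ_ (o + Ordinal.omega0), isStrongLimit_beth.2 hlim.isSuccPrelimit, ?_,
    lt_of_le_of_lt (le_max_left _ _) hlt, lt_of_le_of_lt (le_max_right _ _) hlt⟩
  have hn : Order.IsNormal (fun a : Ordinal.{u} => (ℶ_ a).ord) :=
    Cardinal.isNormal_ord.comp isNormal_beth
  have := Ordinal.cof_map_of_isNormal hn hlim
  rw [this, Ordinal.cof_add _ Ordinal.omega0_ne_zero, Ordinal.cof_omega0]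
  exact hκ

end Pool.Agent.H68Z.Inj
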